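import Mathlib
import Pool.Agent.H20.Cell2

set_option autoImplicit false

namespace Pool.Agent.Results.MP_385815_al.NotCellular

open Pool.Agent.H20.CellDef

theorem result : ∃ c : ℂ, ¬ IsCellular (Hbar c) :=
  ⟨0, Pool.Agent.H20.Cell2.main⟩

end Pool.Agent.Results.MP_385815_al.NotCellular
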